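import Mathlib
import Pool.Agent.Q248.PrimeTreeCount

/-!
# Infinitude of primitive prime sets for additive prime trees (MP_a22f36)

We answer Q1 affirmatively: there are infinitely many primitive sets of primes.

Idea of the proof.  Let `P` be a finite set of primes `≥ 5` and `N` its product.  The pairs
`(X, Y)` of residues modulo `N` with `gcd(X, Y, N) = 1` are, up to sign, the oriented edges of a
cubic graph (a finite quotient of Conway's topograph), the two moves `(X, Y) ↦ (X, X + Y)` and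
`(X, Y) ↦ (X + Y, Y)` being the two ways of continuing a walk without backtracking.  The vertices
one of whose three faces `X, Y, X + Y` is a unit modulo `N` have small proportion as soon as
`φ(N) / N` is small.  Deleting them leaves a graph with more edges than vertices, hence with a
cycle, and this cycle gives an infinite tree.  As the sum of the reciprocals of the primes diverges,
all primes of `P` can be taken larger than a given bound.
-/

namespace Pool.Agent.Results.MP_a22f36_nt.InfinitelyManyPrimitive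

/-- The condition under which a node `(X, Y)` has its two children. -/
def Splits (P : Finset ℕ) (X Y : ℕ) : Prop :=
  Nat.gcd (Nat.gcd X Y) (∏ p ∈ P, p) = 1 ∧ (∃ p ∈ P, p ∣ X) ∧ (∃ p ∈ P, p ∣ Y)

/-- Membership in the additive prime tree of `P` with root `(x, y)`. -/
inductive Node (P : Finset ℕ) (x y : ℕ) : ℕ × ℕ → Prop
  | root : Node P x y (x, y)
  | left {X Y : ℕ} : Node P x y (X, Y) → Splits P X Y → Node P x y (X, X + Y)
  | right {X Y : ℕ} : Node P x y (X, Y) → Splits P X Y → Node P x y (X + Y, Y)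

/-- The additive prime tree `APT_P(x, y)`. -/
def APT (P : Finset ℕ) (x y : ℕ) : Set (ℕ × ℕ) := {q | Node P x y q}

/-- `P` is of finite type: all its additive prime trees with positive root are finite. -/
def FiniteType (P : Finset ℕ) : Prop :=
  ∀ x y : ℕ, 0 < x → 0 < y → (APT P x y).Finite

/-- `P` is a primitive set of primes: it is of infinite type and all its proper subsets are of
finite type. -/
def IsPrimitive (P : Finset ℕ) : Prop :=
  (∀ p ∈ P, p.Prime) ∧ ¬ FiniteType P ∧ ∀ Q : Finset ℕ, Q ⊂ P → FiniteType Q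

theorem splits_of {P : Finset ℕ} (hP : ∀ p ∈ P, p.Prime) {N : ℕ} (hN : N = ∏ p ∈ P, p)
    {X Y : ℕ} (h1 : IsCoprime (X : ZMod N) (Y : ZMod N))
    (h2 : ¬ IsUnit (X : ZMod N)) (h3 : ¬ IsUnit (Y : ZMod N)) :
    Splits P X Y := by
  subst hN
  have aux : ∀ Z : ℕ, ¬ IsUnit (Z : ZMod (∏ p ∈ P, p)) → ∃ p ∈ P, p ∣ Z := by
    intro Z hZ
    rw [ZMod.isUnit_iff_coprime] at hZ
    obtain ⟨q, hq, hqZ, hqN⟩ := Nat.Prime.not_coprime_iff_dvd.1 hZ
    rw [Prime.dvd_finsetProd_iff hq.prime] at hqN
    obtain ⟨p, hp, hqp⟩ := hqN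
    have : q = p := (Nat.prime_dvd_prime_iff_eq hq (hP p hp)).1 hqp
    exact ⟨p, hp, this ▸ hqZ⟩
  exact ⟨Q248.PrimeTree.gcd_of_coprime h1, aux X h2, aux Y h3⟩

theorem exists_infiniteType (M : ℕ) : ∃ P : Finset ℕ, (∀ p ∈ P, p.Prime ∧ M ≤ p) ∧
    ¬ FiniteType P := by
  obtain ⟨P, hP, hsum⟩ := Q248.PrimeTree.exists_primes (max M 5) 4
  refine ⟨P, fun p hp => ⟨(hP p hp).1, (le_max_left _ _).trans (hP p hp).2⟩, ?_⟩
  have hpr : ∀ p ∈ P, p.Prime := fun p hp => (hP p hp).1
  obtain ⟨N, hN⟩ : ∃ N : ℕ, N = ∏ p ∈ P, p := ⟨_, rfl⟩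
  have hNz : NeZero N := ⟨by
    rw [hN]; exact Finset.prod_ne_zero_iff.2 fun p hp => (hpr p hp).ne_zero⟩
  obtain ⟨V, ⟨s, hs⟩, hV, hVc⟩ := Q248.PrimeTree.exists_states P
    (fun p hp => ⟨(hP p hp).1, (le_max_right _ _).trans (hP p hp).2⟩) hsum hN
  intro hfin
  have hNpos : 0 < N := Nat.pos_of_ne_zero hNz.out
  have key : ∀ n : ℕ, ∃ X Y : ℕ, n ≤ X + Y ∧ 0 < X ∧ 0 < Y ∧
      Node P (s.1.val + N) (s.2.val + N) (X, Y) ∧ ((X : ZMod N), (Y : ZMod N)) ∈ V := by
    intro n
    induction n with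
    | zero =>
      refine ⟨s.1.val + N, s.2.val + N, by omega, by omega, by omega, Node.root, ?_⟩
      simpa using hs
    | succ n ih =>
      obtain ⟨X, Y, hn, hX, hY, hnode, hmem⟩ := ih
      have hsp : Splits P X Y := by
        obtain ⟨c1, c2, c3⟩ := hVc _ hmem
        exact splits_of hpr hN c1 c2 c3
      rcases hV _ hmem with h | h
      · refine ⟨X, X + Y, by omega, hX, by omega, Node.left hnode hsp, ?_⟩
        simpa [Q248.PrimeTree.Lm] using h
      · refine ⟨X + Y, Y, by omega, by omega, hY, Node.right hnode hsp, ?_⟩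
        simpa [Q248.PrimeTree.Rm] using h
  have hf := (hfin (s.1.val + N) (s.2.val + N) (by omega) (by omega)).image (fun q => q.1 + q.2)
  obtain ⟨b, hb⟩ := hf.bddAbove
  obtain ⟨X, Y, hn, _, _, hnode, _⟩ := key (b + 1)
  have : X + Y ≤ b := hb ⟨(X, Y), hnode, rfl⟩
  omega

theorem exists_primitive_subset (P : Finset ℕ) : (∀ p ∈ P, p.Prime) → ¬ FiniteType P →
    ∃ Q ⊆ P, IsPrimitive Q := by
  induction P using Finset.strongInduction with
  | H P ih =>
    intro hP hinf
    by_cases h : ∀ Q : Finset ℕ, Q ⊂ P → FiniteType Q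
    · exact ⟨P, Finset.Subset.refl _, hP, hinf, h⟩
    · push Not at h
      obtain ⟨Q, hQP, hQ⟩ := h
      obtain ⟨Q', hQ', hprim⟩ := ih Q hQP (fun p hp => hP p (hQP.1 hp)) hQ
      exact ⟨Q', hQ'.trans hQP.1, hprim⟩

theorem finiteType_empty : FiniteType ∅ := by
  intro x y _ _
  apply (Set.finite_singleton (x, y)).subset
  intro q hq
  have hns : ∀ X Y : ℕ, ¬ Splits ∅ X Y := by
    rintro X Y ⟨_, ⟨p, hp, _⟩, _⟩
    simp at hp
  have : ∀ q, Node ∅ x y q → q = (x, y) := by
    intro q hq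
    cases hq with
    | root => rfl
    | left _ h => exact absurd h (hns _ _)
    | right _ h => exact absurd h (hns _ _)
  exact this q hq

/-- There are infinitely many primitive sets of primes. -/
theorem result : {P : Finset ℕ | IsPrimitive P}.Infinite := by
  intro hfin
  obtain ⟨P, hP, hinf⟩ := exists_infiniteType ((hfin.toFinset.biUnion id).sup id + 1)
  obtain ⟨Q, hQP, hQ⟩ := exists_primitive_subset P (fun p hp => (hP p hp).1) hinf
  have hne : Q.Nonempty := by
    rw [Finset.nonempty_iff_ne_empty]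
    rintro rfl
    exact hQ.2.1 finiteType_empty
  obtain ⟨p, hp⟩ := hne
  have h1 := (hP p (hQP hp)).2
  have h2 : p ∈ hfin.toFinset.biUnion id := by
    rw [Finset.mem_biUnion]
    exact ⟨Q, hfin.mem_toFinset.2 hQ, hp⟩
  have h3 : p ≤ (hfin.toFinset.biUnion id).sup id := Finset.le_sup (f := id) h2
  omega

end Pool.Agent.Results.MP_a22f36_nt.InfinitelyManyPrimitive
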